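import Pool.Agent.helper52.FS.SpecP

open MeasureTheory Set

set_option autoImplicit false

namespace Pool.Agent.FS

/-- the periodic system of points -/
noncomputable def CUT_x (M : ℕ) (xh : ℝ → ℝ) (m : ℤ) : ℝ :=
  4 * ((m / (4 * (M : ℤ)) : ℤ) : ℝ) +
    if m % (4 * (M : ℤ)) < 2 * (M : ℤ) then xh (((m % (4 * (M : ℤ)) : ℤ) : ℝ) / M)
    else xh (((m % (4 * (M : ℤ)) : ℤ) : ℝ) / M - 4) + 4

theorem CUT_dec (M : ℕ) (hM : 1 ≤ M) (m : ℤ) :
    (m : ℝ) / M = 4 * ((m / (4 * (M : ℤ)) : ℤ) : ℝ) + ((m % (4 * (M : ℤ)) : ℤ) : ℝ) / M := by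
  have hM0 : (0 : ℝ) < M := by exact_mod_cast hM
  have h : (m : ℝ) = 4 * (M : ℝ) * ((m / (4 * (M : ℤ)) : ℤ) : ℝ) + ((m % (4 * (M : ℤ)) : ℤ) : ℝ) := by
    have := Int.mul_ediv_add_emod m (4 * (M : ℤ))
    have h2 : ((4 * (M : ℤ) * (m / (4 * (M : ℤ))) + m % (4 * (M : ℤ)) : ℤ) : ℝ) = ((m : ℤ) : ℝ) := by
      rw [this]
    push_cast at h2
    linarith
  rw [eq_comm]
  have h3 : (m : ℝ) / M = (4 * (M : ℝ) * ((m / (4 * (M : ℤ)) : ℤ) : ℝ) + ((m % (4 * (M : ℤ)) : ℤ) : ℝ)) / M := by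
    rw [← h]
  rw [h3]
  field_simp

theorem CUT_bd (M : ℕ) (hM : 1 ≤ M) (xh : ℝ → ℝ) (hx : ∀ v : ℝ, xh v ∈ Icc v (v + 1 / M)) (m : ℤ) :
    (m : ℝ) / M ≤ CUT_x M xh m ∧ CUT_x M xh m ≤ ((m : ℝ) + 1) / M := by
  have e := CUT_dec M hM m
  have e2 : ((m : ℝ) + 1) / M = (m : ℝ) / M + 1 / M := by ring
  rw [e2, e]
  unfold CUT_x
  by_cases h : m % (4 * (M : ℤ)) < 2 * (M : ℤ)
  · rw [if_pos h]
    have := hx (((m % (4 * (M : ℤ)) : ℤ) : ℝ) / M)
    rw [mem_Icc] at this
    constructor <;> linarith [this.1, this.2]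
  · rw [if_neg h]
    have := hx (((m % (4 * (M : ℤ)) : ℤ) : ℝ) / M - 4)
    rw [mem_Icc] at this
    constructor <;> linarith [this.1, this.2]

theorem CUT_per (M : ℕ) (hM : 1 ≤ M) (xh : ℝ → ℝ) (m : ℤ) :
    CUT_x M xh (m + 4 * (M : ℤ)) = CUT_x M xh m + 4 := by
  have hM0 : (4 * (M : ℤ)) ≠ 0 := by
    have : (1 : ℤ) ≤ M := by exact_mod_cast hM
    omega
  have h1 : (m + 4 * (M : ℤ)) % (4 * (M : ℤ)) = m % (4 * (M : ℤ)) := Int.add_emod_right _ _
  have h2 : (m + 4 * (M : ℤ)) / (4 * (M : ℤ)) = m / (4 * (M : ℤ)) + 1 := by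
    rw [Int.add_ediv_of_dvd_right (dvd_refl _), Int.ediv_self hM0]
  unfold CUT_x
  rw [h1, h2]
  push_cast
  ring

theorem CUT_far (M : ℕ) (hM : 1 ≤ M) (c : ℝ) (hc : 0 < c) (hc1 : c < 1) (Y : Set ℝ) (xh : ℝ → ℝ)
    (hx : ∀ v : ℝ, xh v ∈ Icc v (v + 1 / M))
    (hd : ∀ v : ℝ, Disjoint (Ioo (xh v - c / M) (xh v + c / M)) Y) (v : ℝ) (hv : v ∈ Y) (h0 : 0 ≤ v) (h1 : v ≤ 1)
    (m : ℤ) : c / M ≤ |v - CUT_x M xh m| := by
  have hM0 : (0 : ℝ) < M := by exact_mod_cast hM
  have hM1 : (1 : ℝ) ≤ M := by exact_mod_cast hM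
  have hMZ : (1 : ℤ) ≤ M := by exact_mod_cast hM
  have hcM : c / M ≤ 1 := by
    rw [div_le_one hM0]
    linarith
  have key : ∀ w : ℝ, c / M ≤ |v - xh w| := by
    intro w
    by_contra hcon
    push Not at hcon
    have h2 : v ∈ Ioo (xh w - c / M) (xh w + c / M) := by
      rw [abs_lt] at hcon
      constructor <;> linarith [hcon.1, hcon.2]
    exact (Set.disjoint_left.mp (hd w)) h2 hv
  have hr0 : 0 ≤ m % (4 * (M : ℤ)) := Int.emod_nonneg _ (by omega)
  have hr1 : m % (4 * (M : ℤ)) < 4 * (M : ℤ) := Int.emod_lt_of_pos _ (by omega)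
  have hr0' : (0 : ℝ) ≤ ((m % (4 * (M : ℤ)) : ℤ) : ℝ) := by exact_mod_cast hr0
  have hr1' : ((m % (4 * (M : ℤ)) : ℤ) : ℝ) + 1 ≤ 4 * (M : ℝ) := by exact_mod_cast hr1
  have b := CUT_bd M hM xh hx m
  have e := CUT_dec M hM m
  have e2 : ((m : ℝ) + 1) / M = (m : ℝ) / M + 1 / M := by ring
  rw [e2, e] at b
  have f1 : (0 : ℝ) ≤ ((m % (4 * (M : ℤ)) : ℤ) : ℝ) / M := by positivity
  have f2 : ((m % (4 * (M : ℤ)) : ℤ) : ℝ) / M + 1 / M ≤ 4 := by
    rw [← add_div, div_le_iff₀ hM0]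
    exact hr1'
  rcases lt_trichotomy (m / (4 * (M : ℤ))) 0 with hq | hq | hq
  · by_cases hq2 : m / (4 * (M : ℤ)) = -1
    · by_cases h : m % (4 * (M : ℤ)) < 2 * (M : ℤ)
      · -- far on the left
        have f3 : ((m % (4 * (M : ℤ)) : ℤ) : ℝ) / M + 1 / M ≤ 2 := by
          rw [← add_div, div_le_iff₀ hM0]
          exact_mod_cast h
        rw [hq2] at b
        push_cast at b
        rw [le_abs]
        left
        linarith [b.2]
      · have : CUT_x M xh m = xh (((m % (4 * (M : ℤ)) : ℤ) : ℝ) / M - 4) := by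
          unfold CUT_x
          rw [if_neg h, hq2]
          push_cast
          ring
        rw [this]
        exact key _
    · have hq3 : m / (4 * (M : ℤ)) ≤ -2 := by omega
      have hq4 : ((m / (4 * (M : ℤ)) : ℤ) : ℝ) ≤ -2 := by exact_mod_cast hq3
      rw [le_abs]
      left
      linarith [b.2]
  · by_cases h : m % (4 * (M : ℤ)) < 2 * (M : ℤ)
    · have : CUT_x M xh m = xh (((m % (4 * (M : ℤ)) : ℤ) : ℝ) / M) := by
        unfold CUT_x
        rw [if_pos h, hq]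
        push_cast
        ring
      rw [this]
      exact key _
    · have f3 : 2 ≤ ((m % (4 * (M : ℤ)) : ℤ) : ℝ) / M := by
        rw [le_div_iff₀ hM0]
        push Not at h
        exact_mod_cast h
      rw [hq] at b
      push_cast at b
      rw [le_abs]
      right
      linarith [b.1]
  · have hq3 : 1 ≤ m / (4 * (M : ℤ)) := by omega
    have hq4 : 1 ≤ ((m / (4 * (M : ℤ)) : ℤ) : ℝ) := by exact_mod_cast hq3
    rw [le_abs]
    right
    linarith [b.1]

theorem CUT_proof (hF : FEJ_stmt) : CUT_stmt := by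
  intro c τ hc hc1 hτ hτ1
  refine ⟨⌈8 / (c * τ)⌉₊ + 1, by omega, ?_⟩
  intro M Y hM hY
  set B : ℕ := ⌈8 / (c * τ)⌉₊ + 1 with hB
  have hM0 : (0 : ℝ) < M := by exact_mod_cast hM
  have hM1 : (1 : ℝ) ≤ M := by exact_mod_cast hM
  have hB1 : 8 / (c * τ) ≤ (B : ℝ) := by
    rw [hB]
    push_cast
    linarith [Nat.le_ceil (8 / (c * τ))]
  have hB0 : (0 : ℝ) < (B : ℝ) := by
    rw [hB]
    push_cast
    positivity
  choose xh hx hd using hY
  have hP := CUT_per M hM xh
  have hBd := CUT_bd M hM xh hx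
  have hFar := CUT_far M hM c hc hc1 Y xh hx hd
  set X : ℤ → ℝ := CUT_x M xh with hX
  -- the sets
  set G : Set ℝ := {y | ∀ m : ℤ, c / (2 * M) ≤ |y - X m|} with hG
  set E : Set ℝ := {y | ∃ m : ℤ, |y - X m| < c / (4 * M)} with hE
  have hGm : MeasurableSet G := by
    have : G = ⋂ m : ℤ, {y : ℝ | c / (2 * M) ≤ |y - X m|} := by
      ext y
      simp [hG]
    rw [this]
    exact MeasurableSet.iInter fun m => measurableSet_le measurable_const (by fun_prop)
  have hEm : MeasurableSet E := by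
    have : E = ⋃ m : ℤ, {y : ℝ | |y - X m| < c / (4 * M)} := by
      ext y
      simp [hE]
    rw [this]
    exact MeasurableSet.iUnion fun m => measurableSet_lt (by fun_prop) measurable_const
  have hP2 : ∀ m : ℤ, X (m - 4 * (M : ℤ)) = X m - 4 := by
    intro m
    have := hP (m - 4 * (M : ℤ))
    rw [sub_add_cancel] at this
    linarith
  have hGp : ∀ y : ℝ, y + 4 ∈ G ↔ y ∈ G := by
    intro y
    simp only [hG, mem_setOf_eq]
    constructor
    · intro h m
      have := h (m + 4 * (M : ℤ))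
      rw [hP] at this
      have e : y + 4 - (X m + 4) = y - X m := by ring
      rwa [e] at this
    · intro h m
      have := h (m - 4 * (M : ℤ))
      rw [hP2] at this
      have e : y - (X m - 4) = y + 4 - X m := by ring
      rwa [e] at this
  have hEp : ∀ y : ℝ, y + 4 ∈ E ↔ y ∈ E := by
    intro y
    simp only [hE, mem_setOf_eq]
    constructor
    · rintro ⟨m, h⟩
      refine ⟨m - 4 * (M : ℤ), ?_⟩
      rw [hP2]
      have e : y - (X m - 4) = y + 4 - X m := by ring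
      rwa [e]
    · rintro ⟨m, h⟩
      refine ⟨m + 4 * (M : ℤ), ?_⟩
      rw [hP]
      have e : y + 4 - (X m + 4) = y - X m := by ring
      rwa [e]
  have hD : 1 ≤ B * M := Nat.mul_pos (by omega) hM
  obtain ⟨p, hp⟩ := hF (B * M) G hD hGm hGp
  refine ⟨p, E, hEm, hEp, ?_, ?_, ?_, ?_⟩
  · intro m
    refine ⟨X m, (hBd m).1, (hBd m).2, ?_⟩
    intro y hy
    refine ⟨m, ?_⟩
    rw [abs_lt]
    have e : c / 4 / M = c / (4 * M) := by
      field_simp
    rw [e] at hy
    constructor <;> linarith [hy.1, hy.2]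
  · intro v
    obtain ⟨φ, h1, h2, h3, _⟩ := hp v
    rw [h1, Complex.norm_real, Real.norm_eq_abs, abs_of_nonneg h2]
    exact h3
  · intro v hv
    obtain ⟨φ, h1, h2, h3, h4⟩ := hp v
    rw [h1, Complex.norm_real, Real.norm_eq_abs, abs_of_nonneg h2]
    have hd0 : 0 < c / (4 * M) := by positivity
    have hd2 : c / (4 * M) ≤ 2 := by
      rw [div_le_iff₀ (by positivity)]
      nlinarith
    have h5 := (h4 (c / (4 * M)) hd0 hd2).2 ?_
    · refine h5.trans ?_
      push_cast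
      have e : 2 / ((B : ℝ) * M * (c / (4 * M))) = 8 / c / B := by
        field_simp
        norm_num
      rw [e, div_le_iff₀ hB0]
      rw [div_le_iff₀ (by positivity)] at hB1
      rw [div_le_iff₀ hc]
      nlinarith
    · rw [Set.disjoint_left]
      intro y hy hyG
      obtain ⟨m, hm⟩ := hv
      have h6 := hyG m
      rw [abs_lt] at hm
      rw [mem_Icc] at hy
      have e : c / (2 * M) = c / (4 * M) + c / (4 * M) := by
        field_simp
        norm_num
      rw [e, le_abs] at h6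
      rcases h6 with h6 | h6 <;> linarith [hm.1, hm.2, hy.1, hy.2]
  · intro v hv
    obtain ⟨φ, h1, h2, h3, h4⟩ := hp v
    rw [h1, Complex.norm_real, Real.norm_eq_abs, abs_of_nonneg h2]
    have hd0 : 0 < c / (4 * M) := by positivity
    have hd2 : c / (4 * M) ≤ 2 := by
      rw [div_le_iff₀ (by positivity)]
      nlinarith
    have h5 := (h4 (c / (4 * M)) hd0 hd2).1 ?_
    · refine le_trans ?_ h5
      push_cast
      have e : 2 / ((B : ℝ) * M * (c / (4 * M))) = 8 / c / B := by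
        field_simp
        norm_num
      rw [e]
      have : 8 / c / (B : ℝ) ≤ τ := by
        rw [div_le_iff₀ hB0]
        rw [div_le_iff₀ (by positivity)] at hB1
        rw [div_le_iff₀ hc]
        nlinarith
      linarith
    · intro y hy m
      have h6 := hFar v hv.1 hv.2.1 hv.2.2 m
      rw [mem_Icc] at hy
      have e : c / M = c / (4 * M) + c / (2 * M) + c / (4 * M) := by
        field_simp
        norm_num
      rw [e, le_abs] at h6
      rw [le_abs]
      rcases h6 with h6 | h6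
      · left
        linarith [hy.1, hy.2]
      · right
        linarith [hy.1, hy.2]

end Pool.Agent.FS
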