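import Pool.Agent.helper78.FS.Spec

/-!
# Project FS: row CON (connectivity of the far grid points)
-/

set_option autoImplicit false

namespace Pool.Agent.helper78.FS

open Finset Real
open Classical

noncomputable section

/-- **CON**. -/
theorem CON : CON_stmt := by
  intro n _ g η D1 D2 C1 Bc P hη hstep hC1 hD hcard h0 hhor hver i1 j1 hj1 hf1 hP1 i j hj hf
  set S := ((Finset.univ : Finset (ZMod (2 * n))) ×ˢ range (n + 1)).filter (fun p => ∃ b ∈ Bc, dist (g p.1 p.2) b ≤ D1) with hS
  set Bd := S.image Prod.fst with hBd
  have hBdc : Bd.card ≤ C1 := le_trans Finset.card_image_le hcard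
  -- good columns
  have hgood : ∀ i : ZMod (2 * n), i ∉ Bd → ∀ j ≤ n, (P i j ↔ P i 0) := by
    intro i hi j
    have hfar : ∀ j ≤ n, ∀ b ∈ Bc, D1 < dist (g i j) b := by
      intro j hj b hb
      by_contra hcon
      push Not at hcon
      apply hi
      rw [hBd, Finset.mem_image]
      refine ⟨(i, j), ?_, rfl⟩
      rw [hS, Finset.mem_filter, Finset.mem_product]
      exact ⟨⟨Finset.mem_univ _, Finset.mem_range.2 (by omega)⟩, b, hb, hcon⟩
    induction j with
    | zero => intro _; exact Iff.rfl
    | succ j ih =>
      intro hj'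
      rw [← hver i j (by omega) (hfar j (by omega)) (hfar (j + 1) hj')]
      exact ih (by omega)
  -- every far point is equivalent to the pole
  have key : ∀ (i : ZMod (2 * n)) (j : ℕ), j ≤ n → (∀ b ∈ Bc, D2 ≤ dist (g i j) b) → (P i j ↔ P 0 0) := by
    intro i j hj hf
    have hd : ∀ m : ℕ, dist (g i j) (g (i + (m : ZMod (2 * n))) j) ≤ m * η := by
      intro m
      induction m with
      | zero => simp
      | succ m ih =>
        have h1 := hstep (i + (m : ZMod (2 * n))) j hj
        have h2 := dist_triangle (g i j) (g (i + (m : ZMod (2 * n))) j) (g (i + (m : ZMod (2 * n)) + 1) j)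
        push_cast
        rw [← add_assoc]
        linarith
    have hfar : ∀ m : ℕ, m ≤ C1 → ∀ b ∈ Bc, D1 < dist (g (i + (m : ZMod (2 * n))) j) b := by
      intro m hm b hb
      have h1 := dist_triangle (g i j) (g (i + (m : ZMod (2 * n))) j) b
      have h2 := hd m
      have h3 := hf b hb
      have h4 : (m : ℝ) * η ≤ C1 * η := mul_le_mul_of_nonneg_right (Nat.cast_le.2 hm) hη
      linarith
    have hPm : ∀ m : ℕ, m ≤ C1 → (P i j ↔ P (i + (m : ZMod (2 * n))) j) := by
      intro m
      induction m with
      | zero => intro _; simp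
      | succ m ih =>
        intro hm
        have h1 := hhor (i + (m : ZMod (2 * n))) j hj (hfar m (by omega)) (by
          have := hfar (m + 1) hm
          push_cast at this
          rwa [← add_assoc] at this)
        push_cast
        rw [← add_assoc, ← h1]
        exact ih (by omega)
    obtain ⟨m, hm, hmg⟩ : ∃ m ≤ C1, i + (m : ZMod (2 * n)) ∉ Bd := by
      by_contra hcon
      push Not at hcon
      have hinj : Set.InjOn (fun m : ℕ => i + (m : ZMod (2 * n))) (Finset.range (C1 + 1) : Finset ℕ) := by
        intro a ha b hb hab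
        simp only [Finset.coe_range, Set.mem_Iio] at ha hb
        have h1 : (a : ZMod (2 * n)) = (b : ZMod (2 * n)) := add_left_cancel hab
        rw [ZMod.natCast_eq_natCast_iff] at h1
        exact Nat.ModEq.eq_of_lt_of_lt h1 (by omega) (by omega)
      have h1 : ((Finset.range (C1 + 1)).image (fun m : ℕ => i + (m : ZMod (2 * n)))) ⊆ Bd := by
        intro x hx
        rw [Finset.mem_image] at hx
        obtain ⟨m, hm, rfl⟩ := hx
        exact hcon m (by have := Finset.mem_range.1 hm; omega)
      have h2 := Finset.card_le_card h1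
      rw [Finset.card_image_of_injOn hinj, Finset.card_range] at h2
      omega
    rw [hPm m hm, hgood _ hmg j hj]
    exact ⟨h0 _ _, h0 _ _⟩
  rw [key i j hj hf]
  exact (key i1 j1 hj1 hf1).1 hP1

end

end Pool.Agent.helper78.FS
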