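import Pool.Agent.helper78.FS.Spec

/-!
# Project FS: row GCL (the grid is a closed surface)
-/

set_option autoImplicit false

namespace Pool.Agent.helper78.FS

open Finset Real
open Classical

noncomputable section

/-- **GCL**. -/
theorem GCL : GCL_stmt := by
  intro V A _ n _ g q h0 hn hq hqa
  have hstep : ∀ f : ZMod (2 * n) × Fin n, ∑ b : Bool, (q (ta g (f.1, f.2, b)) (tb g (f.1, f.2, b)) + q (tb g (f.1, f.2, b)) (tc g (f.1, f.2, b)) + q (tc g (f.1, f.2, b)) (ta g (f.1, f.2, b))) =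
      (q (g f.1 f.2) (g (f.1 + 1) f.2) - q (g f.1 ((f.2 : ℕ) + 1)) (g (f.1 + 1) ((f.2 : ℕ) + 1))) +
      (q (g (f.1 + 1) f.2) (g (f.1 + 1) ((f.2 : ℕ) + 1)) - q (g f.1 f.2) (g f.1 ((f.2 : ℕ) + 1))) := by
    intro f
    rw [Fintype.sum_bool]
    simp only [ta, tb, tc, if_true, Bool.false_eq_true, if_false]
    rw [hqa (g f.1 ((f.2 : ℕ) + 1)) (g (f.1 + 1) ((f.2 : ℕ) + 1)), hqa (g f.1 f.2) (g f.1 ((f.2 : ℕ) + 1)),
      hqa (g f.1 f.2) (g (f.1 + 1) ((f.2 : ℕ) + 1))]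
    abel
  have h1 : ∑ f : FI n, (q (ta g f) (tb g f) + q (tb g f) (tc g f) + q (tc g f) (ta g f)) =
      ∑ i : ZMod (2 * n), ∑ j : Fin n, ((q (g i j) (g (i + 1) j) - q (g i ((j : ℕ) + 1)) (g (i + 1) ((j : ℕ) + 1))) +
      (q (g (i + 1) j) (g (i + 1) ((j : ℕ) + 1)) - q (g i j) (g i ((j : ℕ) + 1)))) := by
    rw [Fintype.sum_prod_type]
    apply Finset.sum_congr rfl
    intro i _
    rw [Fintype.sum_prod_type]
    apply Finset.sum_congr rfl
    intro j _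
    exact hstep (i, j)
  rw [h1]
  simp_rw [Finset.sum_add_distrib]
  have h2 : ∑ i : ZMod (2 * n), ∑ j : Fin n, (q (g i j) (g (i + 1) j) - q (g i ((j : ℕ) + 1)) (g (i + 1) ((j : ℕ) + 1))) = 0 := by
    apply Finset.sum_eq_zero
    intro i _
    have h3 := Fin.sum_univ_eq_sum_range (fun j : ℕ => q (g i j) (g (i + 1) j) - q (g i (j + 1)) (g (i + 1) (j + 1))) n
    rw [h3, Finset.sum_range_sub' (fun j => q (g i j) (g (i + 1) j)) n, h0 (i + 1) i, hn (i + 1) i, hq, hq, sub_zero]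
  have h4 : ∑ i : ZMod (2 * n), ∑ j : Fin n, (q (g (i + 1) j) (g (i + 1) ((j : ℕ) + 1)) - q (g i j) (g i ((j : ℕ) + 1))) = 0 := by
    rw [Finset.sum_comm]
    apply Finset.sum_eq_zero
    intro j _
    rw [Finset.sum_sub_distrib]
    have h5 := Equiv.sum_comp (Equiv.addRight (1 : ZMod (2 * n))) (fun i => q (g i j) (g i ((j : ℕ) + 1)))
    simp only [Equiv.coe_addRight] at h5
    rw [h5, sub_self]
  rw [h2, h4, add_zero]

end

end Pool.Agent.helper78.FS
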