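import Pool.Agent.helper78.FS.Spec

/-!
# Project FS: row GST (grid steps)
-/

set_option autoImplicit false

namespace Pool.Agent.helper78.FS

open Finset Real
open Classical

noncomputable section

lemma GST_dist (t X Y Z X' Y' Z' : ℝ) :
    dist (!₂[cos t * X + sin t * Z, Y, - sin t * X + cos t * Z] : E3) !₂[cos t * X' + sin t * Z', Y', - sin t * X' + cos t * Z'] ^ 2 =
      (X - X') ^ 2 + (Y - Y') ^ 2 + (Z - Z') ^ 2 := by
  rw [EuclideanSpace.dist_eq, Real.sq_sqrt (by positivity), Fin.sum_univ_three]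
  simp only [Real.dist_eq, sq_abs]
  simp
  have h := Real.sin_sq_add_cos_sq t
  linear_combination ((X - X') ^ 2 + (Z - Z') ^ 2) * h

lemma GST_gr (t r : ℝ) (n : ℕ) [NeZero n] (i i' : ZMod (2 * n)) (j j' : ℕ) :
    dist (gr t r n i j) (gr t r n i' j') ^ 2 =
      (r * sin (j * π / n) * cos (((i.val : ℝ) + 1 / 2) * π / n) - r * sin (j' * π / n) * cos (((i'.val : ℝ) + 1 / 2) * π / n)) ^ 2 +
      (r * sin (j * π / n) * sin (((i.val : ℝ) + 1 / 2) * π / n) - r * sin (j' * π / n) * sin (((i'.val : ℝ) + 1 / 2) * π / n)) ^ 2 +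
      (r * cos (j * π / n) - r * cos (j' * π / n)) ^ 2 :=
  GST_dist t _ _ _ _ _ _

lemma GST_ang (n : ℕ) [NeZero n] (i : ZMod (2 * n)) :
    cos ((((i + 1).val : ℝ) + 1 / 2) * π / n) = cos (((i.val : ℝ) + 1 / 2) * π / n + π / n) ∧
    sin ((((i + 1).val : ℝ) + 1 / 2) * π / n) = sin (((i.val : ℝ) + 1 / 2) * π / n + π / n) := by
  have hn : (n : ℝ) ≠ 0 := Nat.cast_ne_zero.2 (NeZero.ne n)
  have hn1 : 1 ≤ n := Nat.one_le_iff_ne_zero.2 (NeZero.ne n)
  have : Fact (1 < 2 * n) := ⟨by omega⟩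
  have hlt : i.val < 2 * n := ZMod.val_lt i
  have h1 : (i + 1).val = (i.val + 1) % (2 * n) := by
    rw [ZMod.val_add, ZMod.val_one]
  rcases Nat.lt_or_ge (i.val + 1) (2 * n) with h | h
  · rw [h1, Nat.mod_eq_of_lt h]
    have : (((i.val + 1 : ℕ) : ℝ) + 1 / 2) * π / n = ((i.val : ℝ) + 1 / 2) * π / n + π / n := by
      push_cast
      ring
    rw [this]
    exact ⟨rfl, rfl⟩
  · have h2 : i.val + 1 = 2 * n := by omega
    rw [h1, h2, Nat.mod_self]
    have h3 : (i.val : ℝ) = 2 * n - 1 := by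
      have : ((i.val + 1 : ℕ) : ℝ) = ((2 * n : ℕ) : ℝ) := by rw [h2]
      push_cast at this
      linarith
    have : ((i.val : ℝ) + 1 / 2) * π / n + π / n = (((0 : ℕ) : ℝ) + 1 / 2) * π / n + 2 * π := by
      rw [h3]
      push_cast
      field_simp
      ring
    rw [this, Real.cos_add_two_pi, Real.sin_add_two_pi]
    exact ⟨rfl, rfl⟩

/-- **GST**. -/
theorem GST : GST_stmt := by
  intro t r n _ hr i j hj
  have hn : (0 : ℝ) < n := Nat.cast_pos.2 (Nat.pos_of_ne_zero (NeZero.ne n))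
  have hpi := Real.pi_pos
  have hb : 0 ≤ r * π / n := by positivity
  constructor
  · apply abs_le_of_sq_le_sq' _ hb |>.2
    rw [GST_gr]
    obtain ⟨hc, hs⟩ := GST_ang n i
    rw [hc, hs]
    set a := ((i.val : ℝ) + 1 / 2) * π / n with ha
    set b := π / n with hb'
    set S := sin (j * π / n) with hS
    have h1 := Real.one_sub_sq_div_two_le_cos (x := b)
    have h2 : (r * S * cos a - r * S * cos (a + b)) ^ 2 + (r * S * sin a - r * S * sin (a + b)) ^ 2 + (r * cos (j * π / n) - r * cos (j * π / n)) ^ 2 =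
        (r * S) ^ 2 * (2 - 2 * cos b) := by
      rw [Real.cos_add, Real.sin_add]
      have e1 := Real.sin_sq_add_cos_sq a
      have e2 := Real.sin_sq_add_cos_sq b
      have e3 : (cos a - (cos a * cos b - sin a * sin b)) ^ 2 + (sin a - (sin a * cos b + cos a * sin b)) ^ 2 = 2 - 2 * cos b := by
        linear_combination (1 - 2 * cos b + cos b ^ 2 + sin b ^ 2) * e1 + e2
      linear_combination (r * S) ^ 2 * e3
    rw [h2]
    have h3 : S ^ 2 ≤ 1 := by
      rw [hS]
      exact Real.sin_sq_le_one _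
    have h4 : r * π / n = r * b := by rw [hb']; ring
    rw [h4]
    have h5 : 2 - 2 * cos b ≤ b ^ 2 := by linarith
    have h6 : 0 ≤ 2 - 2 * cos b := by linarith [Real.cos_le_one b]
    calc (r * S) ^ 2 * (2 - 2 * cos b) = r ^ 2 * (S ^ 2 * (2 - 2 * cos b)) := by ring
      _ ≤ r ^ 2 * (1 * b ^ 2) := mul_le_mul_of_nonneg_left (mul_le_mul h3 h5 h6 zero_le_one) (sq_nonneg r)
      _ = (r * b) ^ 2 := by ring
  · intro _
    apply abs_le_of_sq_le_sq' _ hb |>.2
    rw [GST_gr]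
    have hj' : ((j + 1 : ℕ) : ℝ) * π / n = j * π / n + π / n := by
      push_cast
      ring
    rw [hj']
    set a := ((i.val : ℝ) + 1 / 2) * π / n with ha
    set b := π / n with hb'
    set θ := (j : ℝ) * π / n with hθ
    have h1 := Real.one_sub_sq_div_two_le_cos (x := b)
    have h2 : (r * sin θ * cos a - r * sin (θ + b) * cos a) ^ 2 + (r * sin θ * sin a - r * sin (θ + b) * sin a) ^ 2 + (r * cos θ - r * cos (θ + b)) ^ 2 =
        r ^ 2 * (2 - 2 * cos b) := by
      rw [Real.cos_add, Real.sin_add]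
      have e1 := Real.sin_sq_add_cos_sq a
      have e2 := Real.sin_sq_add_cos_sq b
      have e3 := Real.sin_sq_add_cos_sq θ
      have e4 : (cos θ - (cos θ * cos b - sin θ * sin b)) ^ 2 + (sin θ - (sin θ * cos b + cos θ * sin b)) ^ 2 = 2 - 2 * cos b := by
        linear_combination (1 - 2 * cos b + cos b ^ 2 + sin b ^ 2) * e3 + e2
      linear_combination r ^ 2 * e4 + r ^ 2 * (sin θ - (sin θ * cos b + cos θ * sin b)) ^ 2 * e1
    rw [h2]
    have h4 : r * π / n = r * b := by rw [hb']; ring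
    rw [h4]
    have h5 : 2 - 2 * cos b ≤ b ^ 2 := by linarith
    calc r ^ 2 * (2 - 2 * cos b) ≤ r ^ 2 * b ^ 2 := mul_le_mul_of_nonneg_left h5 (sq_nonneg r)
      _ = (r * b) ^ 2 := by ring

end

end Pool.Agent.helper78.FS
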